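import Pool.Agent.K9h52.DX.Main3
import Pool.Agent.Y24.GL.H5

/-!
L-functions: Dirichlet series with polynomial growth and an inverse with small coefficients.
-/

open Complex Metric Set Filter Topology

namespace Pool.Agent.K9h52.GX

open H370 H370.Loc DH31 DX

/-- the analytic properties -/
structure EZ (F : ℂ → ℂ) : Prop where
  diff : Differentiable ℂ F
  ne : ∀ z : ℂ, 1 < z.re → F z ≠ 0
  bds : ∃ A : ℝ, 1 ≤ A ∧ ∀ s : ℂ, 3 / 2 ≤ s.re → ‖F s‖ ≤ A ∧ 1 / A ≤ ‖F s‖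
  gro : ∃ (C : ℝ) (B : ℕ), 0 < C ∧ ∀ z : ℂ, 1 / 4 ≤ z.re → z.re ≤ 4 → ‖F z‖ ≤ C * (1 + |z.im|) ^ B

/-- growth up to height `3Y + 4` in terms of `T` -/
def Gr (F : ℂ → ℂ) (T Y : ℝ) : Prop :=
  ∀ w : ℂ, 1 / 4 ≤ w.re → w.re ≤ 4 → 1 ≤ w.im → w.im ≤ 3 * Y + 4 → ‖F w‖ ≤ T ^ 2

/-- the zeros of `F` in the set `A`, counted with multiplicity -/
noncomputable def cntF (F : ℂ → ℂ) (A : Set ℂ) : ℕ := ∑ᶠ s ∈ A, analyticOrderNatAt F s

variable {F : ℂ → ℂ}

lemma EZ.re_le (hF : EZ F) {ρ : ℂ} (h : F ρ = 0) : ρ.re ≤ 1 := by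
  by_contra hcon
  push Not at hcon
  exact hF.ne ρ hcon h

lemma EZ.an (hF : EZ F) (z : ℂ) : AnalyticAt ℂ F z := hF.diff.analyticAt z

lemma EZ.ne2 (hF : EZ F) (y : ℝ) : F ⟨2, y⟩ ≠ 0 := hF.ne _ (by simp)

lemma EZ.fin_compact (hF : EZ F) {K : Set ℂ} (hK : IsCompact K) :
    {s : ℂ | s ∈ K ∧ F s = 0}.Finite := by
  by_contra hinf
  have hinf : {s : ℂ | s ∈ K ∧ F s = 0}.Infinite := hinf
  obtain ⟨x, hx, hacc⟩ := hinf.exists_accPt_of_subset_isCompact hK (fun s hs => hs.1)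
  have hfreq : ∃ᶠ z in 𝓝[≠] x, F z = 0 := by
    rw [accPt_iff_frequently_nhdsNE] at hacc
    exact hacc.mono fun z hz => hz.2
  have hz := AnalyticOnNhd.eqOn_zero_of_preconnected_of_frequently_eq_zero
      (f := F) (U := Set.univ) (fun s _ => hF.an s) isPreconnected_univ
      (Set.mem_univ x) hfreq
  exact hF.ne2 0 (hz (Set.mem_univ _))

lemma EZ.fin_region (hF : EZ F) (a b c : ℝ) :
    {s : ℂ | F s = 0 ∧ a ≤ s.re ∧ b ≤ s.im ∧ s.im ≤ c}.Finite := by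
  have hcomp : IsCompact (Icc a 1 ×ℂ Icc b c) := isCompact_Icc.reProdIm isCompact_Icc
  refine (hF.fin_compact hcomp).subset ?_
  rintro s ⟨h1, h2, h3, h4⟩
  exact ⟨⟨⟨h2, hF.re_le h1⟩, ⟨h3, h4⟩⟩, h1⟩

lemma cntF_eq {A : Set ℂ} (hA : A.Finite) :
    cntF F A = ∑ s ∈ hA.toFinset, analyticOrderNatAt F s :=
  finsum_mem_eq_finite_toFinset_sum _ hA

lemma cntF_mono {A B : Set ℂ} (hB : B.Finite) (h : A ⊆ B) : cntF F A ≤ cntF F B := by
  rw [cntF_eq (hB.subset h), cntF_eq hB]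
  exact Finset.sum_le_sum_of_subset (by
    intro x hx
    rw [Set.Finite.mem_toFinset] at hx ⊢
    exact h hx)

lemma sum_le_cntF {A : Set ℂ} (hA : A.Finite) (S : Finset ℂ) (h : ∀ z ∈ S, z ∈ A) :
    ∑ s ∈ S, analyticOrderNatAt F s ≤ cntF F A := by
  rw [cntF_eq hA]
  exact Finset.sum_le_sum_of_subset (by
    intro x hx
    rw [Set.Finite.mem_toFinset]
    exact h x hx)

/-- zeros in a closed disc -/
def ZdF (F : ℂ → ℂ) (c : ℂ) (R : ℝ) : Set ℂ := {s : ℂ | F s = 0 ∧ ‖s - c‖ ≤ R}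

lemma EZ.Zd_finite (hF : EZ F) (c : ℂ) (R : ℝ) : (ZdF F c R).Finite := by
  refine (hF.fin_compact (isCompact_closedBall c R)).subset ?_
  rintro s ⟨h1, h2⟩
  refine ⟨?_, h1⟩
  rw [mem_closedBall, dist_eq_norm]
  exact h2

lemma EZ.Zd_sum_le (hF : EZ F) {c : ℂ} {R : ℝ} {S : Finset ℂ}
    (hS : ∀ z ∈ S, z ∈ closedBall c R ∧ F z = 0) :
    ∑ z ∈ S, (mult F z : ℝ) ≤ cntF F (ZdF F c R) := by
  have h5 : ∑ s ∈ S, analyticOrderNatAt F s ≤ cntF F (ZdF F c R) := by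
    refine sum_le_cntF (hF.Zd_finite c R) S fun z hz => ?_
    obtain ⟨h6, h7⟩ := hS z hz
    rw [mem_closedBall, dist_eq_norm] at h6
    exact ⟨h7, h6⟩
  unfold mult
  exact_mod_cast h5

lemma cntF_pos {A : Set ℂ} (h : 0 < cntF F A) : A.Nonempty := by
  by_contra hcon
  rw [Set.not_nonempty_iff_eq_empty] at hcon
  rw [hcon] at h
  unfold cntF at h
  simp at h

lemma cntF_le_sum {ι : Type*} [DecidableEq ι] {A : Set ℂ} (hA : A.Finite) (U : Finset ι)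
    (t : ι → Set ℂ) (ht : ∀ i, (t i).Finite) (h : ∀ s ∈ A, ∃ i ∈ U, s ∈ t i) :
    cntF F A ≤ ∑ i ∈ U, cntF F (t i) := by
  classical
  rw [cntF_eq hA]
  have h1 : hA.toFinset ⊆ U.biUnion (fun i => (ht i).toFinset) := by
    intro s hs
    rw [Set.Finite.mem_toFinset] at hs
    obtain ⟨i, hi, hsi⟩ := h s hs
    rw [Finset.mem_biUnion]
    exact ⟨i, hi, by rw [Set.Finite.mem_toFinset]; exact hsi⟩
  refine (Finset.sum_le_sum_of_subset h1).trans ((sum_biUnion_le _ _ _).trans (le_of_eq ?_))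
  refine Finset.sum_congr rfl fun i _ => ?_
  rw [cntF_eq (ht i)]

lemma EZ.region_finite (hF : EZ F) (a b B : ℝ) :
    {s : ℂ | F s = 0 ∧ a ≤ s.re ∧ |s.im - b| ≤ B}.Finite := by
  refine (hF.fin_region a (b - B) (b + B)).subset ?_
  rintro s ⟨h1, h2, h3⟩
  rw [abs_le] at h3
  exact ⟨h1, h2, by linarith [h3.1], by linarith [h3.2]⟩

/-- the functions of the library -/
lemma EZ.lfn (hF : EZ F) : Pool.Agent.Y24.GL.LFn F where
  diff := hF.diff
  gro := fun A => by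
    obtain ⟨C, B, hC, h⟩ := hF.gro
    obtain ⟨A1, hA1, hA⟩ := hF.bds
    refine ⟨C + A1, B, by linarith, fun z hz1 hz2 => ?_⟩
    have h1 : (1 : ℝ) ≤ (1 + |z.im|) ^ B := one_le_pow₀ (by linarith [abs_nonneg z.im])
    rcases le_or_gt z.re 4 with h4 | h4
    · refine (h z hz1 h4).trans ?_
      apply mul_le_mul_of_nonneg_right (by linarith) (by linarith)
    · have h5 := (hA z (by linarith)).1
      calc ‖F z‖ ≤ (C + A1) * 1 := by linarith
        _ ≤ _ := mul_le_mul_of_nonneg_left h1 (by linarith)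
  low := by
    obtain ⟨A, hA1, hA⟩ := hF.bds
    exact ⟨1 / A, by positivity, fun z hz => (hA z (by linarith)).2⟩
  ne := hF.ne

/-- growth for powers -/
lemma EZ.gr (hF : EZ F) : ∃ P : ℕ, 1 ≤ P ∧ ∃ T0 : ℝ, 1 ≤ T0 ∧ ∀ T : ℝ, T0 ≤ T → Gr F (T ^ P) T := by
  obtain ⟨C, B, hC, h⟩ := hF.gro
  refine ⟨B + 1, by omega, max (C + 8) 8, (by norm_num : (1 : ℝ) ≤ 8).trans (le_max_right _ _), ?_⟩
  intro T hT w hw1 hw2 hw3 hw4
  have hT1 : C + 8 ≤ T := (le_max_left _ _).trans hT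
  have h1 := h w hw1 hw2
  have him : |w.im| = w.im := abs_of_nonneg (by linarith)
  rw [him] at h1
  have h2 : 1 + w.im ≤ T ^ 2 := by nlinarith
  have h3 : (1 + w.im) ^ B ≤ (T ^ 2) ^ B := by
    apply pow_le_pow_left₀ (by linarith) h2
  have h4 : C ≤ T ^ 2 := by nlinarith
  calc ‖F w‖ ≤ C * (1 + w.im) ^ B := h1
    _ ≤ T ^ 2 * (T ^ 2) ^ B := by
        apply mul_le_mul h4 h3 (by have : 0 ≤ 1 + w.im := by linarith
                                   positivity) (by positivity)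
    _ = (T ^ (B + 1)) ^ 2 := by ring

/-- zeros with real part at least `σ` and height in `(0, Y]` -/
def zerosF (F : ℂ → ℂ) (σ Y : ℝ) : Set ℂ := {s : ℂ | F s = 0 ∧ σ ≤ s.re ∧ 0 < s.im ∧ s.im ≤ Y}

lemma EZ.zeros_finite (hF : EZ F) (σ Y : ℝ) : (zerosF F σ Y).Finite :=
  (hF.fin_region σ 0 Y).subset fun _ hs => ⟨hs.1, hs.2.1, hs.2.2.1.le, hs.2.2.2⟩

/-- from unit intervals to zeros -/
theorem EZ.windows (hF : EZ F) : ∃ C : ℝ, 0 < C ∧ ∀ Y : ℝ, 3 ≤ Y → ∀ A : Set ℂ,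
    A ⊆ zerosF F (1 / 2) Y → ∀ S : Finset ℕ,
    (∀ ρ ∈ A, ∃ n ∈ S, (n : ℝ) < ρ.im ∧ ρ.im ≤ n + 1) →
    (cntF F A : ℝ) ≤ (S.card : ℝ) * (C * Real.log Y) := by
  classical
  obtain ⟨C0, hC0, hz⟩ := Pool.Agent.Y24.GL.unit_count hF.lfn
  refine ⟨2 * C0, by positivity, ?_⟩
  intro Y hY A hA S hS
  have hAf : A.Finite := (hF.zeros_finite _ _).subset hA
  set U := hAf.toFinset with hU
  set S' : Finset ℕ := S.filter (fun n : ℕ => (n : ℝ) ≤ Y) with hS'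
  set W : ℕ → Finset ℂ := fun n => U.filter (fun s => (n : ℝ) < s.im ∧ s.im ≤ n + 1) with hW
  have h3 : ∑ s ∈ U, (analyticOrderNatAt F s : ℝ) ≤ ∑ n ∈ S', ∑ s ∈ W n, (analyticOrderNatAt F s : ℝ) := by
    have hsub : U ⊆ S'.biUnion W := by
      intro s hs
      rw [hU, Set.Finite.mem_toFinset] at hs
      obtain ⟨n, hn, hn1, hn2⟩ := hS s hs
      rw [Finset.mem_biUnion]
      refine ⟨n, ?_, ?_⟩
      · rw [hS', Finset.mem_filter]
        refine ⟨hn, ?_⟩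
        have := (hA hs).2.2.2
        linarith
      · simp only [hW]
        rw [Finset.mem_filter, hU, Set.Finite.mem_toFinset]
        exact ⟨hs, hn1, hn2⟩
    have hdisj : (S' : Set ℕ).PairwiseDisjoint W := by
      intro a _ b _ hab
      rw [Function.onFun, Finset.disjoint_left]
      intro s hsa hsb
      simp only [hW, Finset.mem_filter] at hsa hsb
      apply hab
      have e1 : (a : ℝ) < b + 1 := lt_of_lt_of_le hsa.2.1 hsb.2.2
      have e2 : (b : ℝ) < a + 1 := lt_of_lt_of_le hsb.2.1 hsa.2.2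
      have e3 : a < b + 1 := by exact_mod_cast e1
      have e4 : b < a + 1 := by exact_mod_cast e2
      omega
    rw [← Finset.sum_biUnion hdisj]
    exact Finset.sum_le_sum_of_subset_of_nonneg hsub fun _ _ _ => Nat.cast_nonneg _
  have h4 : ∀ n ∈ S', ∑ s ∈ W n, (analyticOrderNatAt F s : ℝ) ≤ 2 * C0 * Real.log Y := by
    intro n hn
    rw [hS', Finset.mem_filter] at hn
    obtain ⟨-, hnY⟩ := hn
    have hn0 : (0 : ℝ) ≤ n := Nat.cast_nonneg _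
    have h5 := hz (n + 1 / 2) (by linarith) (W n) (by
      intro ρ hρ
      simp only [hW, Finset.mem_filter, hU, Set.Finite.mem_toFinset] at hρ
      have hA' := hA hρ.1
      refine ⟨hA'.2.1, hF.re_le hA'.1, ?_⟩
      rw [abs_le]
      constructor <;> linarith [hρ.2.1, hρ.2.2])
    have h7 : Real.log (n + 1 / 2 + 3) ≤ 2 * Real.log Y := by
      have : (n : ℝ) + 1 / 2 + 3 ≤ Y ^ 2 := by nlinarith
      calc Real.log (n + 1 / 2 + 3) ≤ Real.log (Y ^ 2) := Real.log_le_log (by linarith) this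
        _ = _ := by rw [Real.log_pow]; norm_num
    calc _ ≤ C0 * Real.log (n + 1 / 2 + 3) := h5
      _ ≤ C0 * (2 * Real.log Y) := by gcongr
      _ = _ := by ring
  have h1 : (cntF F A : ℝ) = ∑ s ∈ U, (analyticOrderNatAt F s : ℝ) := by
    rw [cntF_eq hAf]
    push_cast
    rfl
  rw [h1]
  have hlogY : 0 ≤ Real.log Y := Real.log_nonneg (by linarith)
  calc _ ≤ ∑ n ∈ S', ∑ s ∈ W n, (analyticOrderNatAt F s : ℝ) := h3
    _ ≤ ∑ n ∈ S', 2 * C0 * Real.log Y := Finset.sum_le_sum h4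
    _ = (S'.card : ℝ) * (2 * C0 * Real.log Y) := by
          rw [Finset.sum_const, nsmul_eq_mul]
    _ ≤ _ := by
          have : (S'.card : ℝ) ≤ S.card := by exact_mod_cast Finset.card_filter_le _ _
          gcongr

end Pool.Agent.K9h52.GX
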