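import Pool.Agent.K9h52.GX.Base

/-!
L-functions with an inverse: coefficients of the product of `F` and a partial sum of the inverse.
-/

open Complex Metric Set Filter Topology

namespace Pool.Agent.K9h52.GX

open DH31 DX

/-- entire Dirichlet series `F = ∑ a(n) n^(-s)` with inverse `∑ b(n) n^(-s)`, `a(n), b(n) ≪ n^κ` for
every `κ > 0`, and of polynomial growth -/
structure LX (F : ℂ → ℂ) (a b : ArithmeticFunction ℂ) : Prop where
  diff : Differentiable ℂ F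
  gro : ∃ (C : ℝ) (B : ℕ), 0 < C ∧ ∀ z : ℂ, 1 / 4 ≤ z.re → z.re ≤ 4 → ‖F z‖ ≤ C * (1 + |z.im|) ^ B
  inv : a * b = 1
  bda : ∀ κ : ℝ, 0 < κ → ∃ C : ℝ, 0 < C ∧ ∀ n : ℕ, 1 ≤ n → ‖a n‖ ≤ C * (n : ℝ) ^ κ
  bdb : ∀ κ : ℝ, 0 < κ → ∃ C : ℝ, 0 < C ∧ ∀ n : ℕ, 1 ≤ n → ‖b n‖ ≤ C * (n : ℝ) ^ κ
  ser : ∀ s : ℂ, 1 < s.re → F s = LSeries (fun n => a n) s

/-- small coefficients -/
def Sm (a : ArithmeticFunction ℂ) : Prop :=
  ∀ κ : ℝ, 0 < κ → ∃ C : ℝ, 0 < C ∧ ∀ n : ℕ, 1 ≤ n → ‖a n‖ ≤ C * (n : ℝ) ^ κ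

lemma norm_mul_le_of {f g : ArithmeticFunction ℂ} {A B κ : ℝ} (hA : 0 ≤ A) (hB : 0 ≤ B)
    (hf : ∀ n : ℕ, 1 ≤ n → ‖f n‖ ≤ A * (n : ℝ) ^ κ)
    (hg : ∀ n : ℕ, 1 ≤ n → ‖g n‖ ≤ B * (n : ℝ) ^ κ) {n : ℕ} (hn : 1 ≤ n) :
    ‖(f * g) n‖ ≤ A * B * ((n.divisors.card : ℝ) * (n : ℝ) ^ κ) := by
  rw [ArithmeticFunction.mul_apply]
  have h1 : ∀ x ∈ n.divisorsAntidiagonal, ‖f x.1 * g x.2‖ ≤ A * B * (n : ℝ) ^ κ := by
    intro x hx
    rw [Nat.mem_divisorsAntidiagonal] at hx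
    obtain ⟨h2, h3⟩ := hx
    have hx1 : 1 ≤ x.1 := Nat.one_le_iff_ne_zero.2 (by rintro h; rw [h] at h2; omega)
    have hx2 : 1 ≤ x.2 := Nat.one_le_iff_ne_zero.2 (by rintro h; rw [h] at h2; omega)
    have h4 : (n : ℝ) ^ κ = (x.1 : ℝ) ^ κ * (x.2 : ℝ) ^ κ := by
      rw [← Real.mul_rpow (Nat.cast_nonneg _) (Nat.cast_nonneg _), ← h2]
      push_cast
      rfl
    rw [norm_mul, h4]
    calc ‖f x.1‖ * ‖g x.2‖ ≤ (A * (x.1 : ℝ) ^ κ) * (B * (x.2 : ℝ) ^ κ) :=
          mul_le_mul (hf _ hx1) (hg _ hx2) (norm_nonneg _) (by positivity)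
      _ = _ := by ring
  refine (norm_sum_le_of_le _ h1).trans (le_of_eq ?_)
  rw [Finset.sum_const, nsmul_eq_mul]
  have h5 : n.divisorsAntidiagonal.card = n.divisors.card := by
    rw [← Nat.map_div_right_divisors, Finset.card_map]
  rw [h5]
  ring

lemma Sm.mul {f g : ArithmeticFunction ℂ} (hf : Sm f) (hg : Sm g) : Sm (f * g) := by
  intro κ hκ
  obtain ⟨A, hA, h1⟩ := hf (κ / 2) (by positivity)
  obtain ⟨B, hB, h2⟩ := hg (κ / 2) (by positivity)
  obtain ⟨D, hD, h3⟩ := div_bound (ε := κ / 2) (by positivity)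
  refine ⟨A * B * D, by positivity, fun n hn => ?_⟩
  refine (norm_mul_le_of hA.le hB.le h1 h2 hn).trans ?_
  have hn0 : (0 : ℝ) < n := by exact_mod_cast hn
  calc A * B * ((n.divisors.card : ℝ) * (n : ℝ) ^ (κ / 2)) ≤
        A * B * ((D * (n : ℝ) ^ (κ / 2)) * (n : ℝ) ^ (κ / 2)) := by
        have := h3 n hn
        gcongr
    _ = A * B * D * ((n : ℝ) ^ (κ / 2) * (n : ℝ) ^ (κ / 2)) := by ring
    _ = _ := by
        rw [← Real.rpow_add hn0]
        congr 2
        ring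

lemma Sm.summ {a : ArithmeticFunction ℂ} (h : Sm a) {s : ℂ} (hs : 1 < s.re) :
    LSeriesSummable (fun n => a n) s := by
  obtain ⟨C, hC, h1⟩ := h ((s.re - 1) / 2) (by linarith)
  refine LSeriesSummable_of_le_const_mul_rpow (x := 1 + (s.re - 1) / 2) (by linarith)
    ⟨C, fun n hn => ?_⟩
  have := h1 n (Nat.one_le_iff_ne_zero.2 hn)
  rwa [add_sub_cancel_left]

lemma Sm.bdd {a : ArithmeticFunction ℂ} (h : Sm a) : ∃ A : ℝ, 1 ≤ A ∧ ∀ s : ℂ, 3 / 2 ≤ s.re →
    ‖LSeries (fun n => a n) s‖ ≤ A := by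
  have h1 : LSeriesSummable (fun n => a n) ((5 / 4 : ℝ) : ℂ) := h.summ (by norm_num)
  have h2 : Summable (fun n => ‖LSeries.term (fun n => a n) ((5 / 4 : ℝ) : ℂ) n‖) := h1.norm
  refine ⟨1 + ∑' n, ‖LSeries.term (fun n => a n) ((5 / 4 : ℝ) : ℂ) n‖, by
    have : 0 ≤ ∑' n, ‖LSeries.term (fun n => a n) ((5 / 4 : ℝ) : ℂ) n‖ :=
      tsum_nonneg fun n => norm_nonneg _
    linarith, fun s hs => ?_⟩
  have h3 : ∀ n, ‖LSeries.term (fun n => a n) s n‖ ≤
      ‖LSeries.term (fun n => a n) ((5 / 4 : ℝ) : ℂ) n‖ := by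
    intro n
    rcases Nat.eq_zero_or_pos n with rfl | hn
    · simp
    · rw [LSeries.term_of_ne_zero hn.ne', LSeries.term_of_ne_zero hn.ne', norm_div, norm_div,
        Complex.norm_natCast_cpow_of_pos hn, Complex.norm_natCast_cpow_of_pos hn]
      have hn1 : (1 : ℝ) ≤ n := by exact_mod_cast hn
      have h4 : (n : ℝ) ^ (((5 / 4 : ℝ) : ℂ)).re ≤ (n : ℝ) ^ s.re := by
        apply Real.rpow_le_rpow_of_exponent_le hn1
        rw [Complex.ofReal_re]
        linarith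
      have h5 : 0 < (n : ℝ) ^ (((5 / 4 : ℝ) : ℂ)).re := by positivity
      gcongr
  have h4 : Summable (fun n => ‖LSeries.term (fun n => a n) s n‖) :=
    h2.of_nonneg_of_le (fun n => norm_nonneg _) h3
  have h5 := (norm_tsum_le_tsum_norm h4).trans (h4.tsum_le_tsum h3 h2)
  unfold LSeries
  linarith

variable {F : ℂ → ℂ} {a b : ArithmeticFunction ℂ}

lemma LX.one (h : LX F a b) {s : ℂ} (hs : 1 < s.re) : F s * LSeries (fun n => b n) s = 1 := by
  rw [h.ser s hs, ← ArithmeticFunction.LSeries_mul' (Sm.summ h.bda hs) (Sm.summ h.bdb hs), h.inv]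
  rw [ArithmeticFunction.one_eq_delta, LSeries_delta]
  rfl

lemma LX.ez (h : LX F a b) : EZ F where
  diff := h.diff
  gro := h.gro
  ne := fun z hz h0 => by
    have := h.one hz
    rw [h0, zero_mul] at this
    exact zero_ne_one this
  bds := by
    obtain ⟨A, hA1, hA⟩ := Sm.bdd h.bda
    obtain ⟨B, hB1, hB⟩ := Sm.bdd h.bdb
    refine ⟨max A B, hA1.trans (le_max_left _ _), fun s hs => ⟨?_, ?_⟩⟩
    · rw [h.ser s (by linarith)]
      exact (hA s hs).trans (le_max_left _ _)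
    · have h1 := h.one (s := s) (by linarith)
      have h2 : ‖F s‖ * ‖LSeries (fun n => b n) s‖ = 1 := by rw [← norm_mul, h1, norm_one]
      have h3 := (hB s hs).trans (le_max_right A B)
      have h4 : 0 < max A B := by
        have := le_max_left A B
        linarith
      rw [div_le_iff₀ h4]
      calc (1 : ℝ) = ‖F s‖ * ‖LSeries (fun n => b n) s‖ := h2.symm
        _ ≤ _ := mul_le_mul_of_nonneg_left h3 (norm_nonneg _)

lemma LX.mul {F' : ℂ → ℂ} {a' b' : ArithmeticFunction ℂ} (h : LX F a b) (h' : LX F' a' b') :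
    LX (fun s => F s * F' s) (a * a') (b * b') where
  diff := h.diff.mul h'.diff
  gro := by
    obtain ⟨C, B, hC, h1⟩ := h.gro
    obtain ⟨C', B', hC', h2⟩ := h'.gro
    refine ⟨C * C', B + B', by positivity, fun z hz1 hz2 => ?_⟩
    rw [norm_mul, pow_add]
    have h3 : 0 ≤ 1 + |z.im| := by positivity
    calc ‖F z‖ * ‖F' z‖ ≤ (C * (1 + |z.im|) ^ B) * (C' * (1 + |z.im|) ^ B') :=
          mul_le_mul (h1 z hz1 hz2) (h2 z hz1 hz2) (norm_nonneg _) (by positivity)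
      _ = _ := by ring
  inv := by
    calc a * a' * (b * b') = (a * b) * (a' * b') := by ring
      _ = 1 := by rw [h.inv, h'.inv, one_mul]
  bda := Sm.mul h.bda h'.bda
  bdb := Sm.mul h.bdb h'.bdb
  ser := fun s hs => by
    rw [ArithmeticFunction.LSeries_mul' (Sm.summ h.bda hs) (Sm.summ h'.bda hs), h.ser s hs,
      h'.ser s hs]

/-- truncated inverse -/
noncomputable def tb (b : ArithmeticFunction ℂ) (X : ℕ) : ArithmeticFunction ℂ :=
  ⟨fun n => if n ≤ X then b n else 0, by simp⟩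

lemma tb_apply (b : ArithmeticFunction ℂ) (X n : ℕ) : tb b X n = if n ≤ X then b n else 0 := rfl

/-- the mollifier -/
noncomputable def BX (b : ArithmeticFunction ℂ) (X : ℕ) (s : ℂ) : ℂ :=
  ∑ m ∈ Finset.Icc 1 X, b m * (m : ℂ) ^ (-s)

/-- the coefficients of `F` times the mollifier -/
noncomputable def cX (a b : ArithmeticFunction ℂ) (X : ℕ) : ArithmeticFunction ℂ := a * tb b X

lemma cX_one (hab : a * b = 1) {X : ℕ} (hX : 1 ≤ X) : cX a b X 1 = 1 := by
  have h1 := congrArg (fun f => f 1) hab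
  simp only [ArithmeticFunction.mul_apply_one, ArithmeticFunction.one_one] at h1
  unfold cX
  rw [ArithmeticFunction.mul_apply_one, tb_apply, if_pos hX, h1]

lemma cX_zero (hab : a * b = 1) {X n : ℕ} (h1 : 1 < n) (hn : n ≤ X) : cX a b X n = 0 := by
  have h2 := congrArg (fun f => f n) hab
  rw [ArithmeticFunction.one_apply_ne (by omega), ArithmeticFunction.mul_apply] at h2
  unfold cX
  rw [ArithmeticFunction.mul_apply, ← h2]
  refine Finset.sum_congr rfl fun x hx => ?_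
  rw [Nat.mem_divisorsAntidiagonal] at hx
  have h3 : x.2 ≤ n := Nat.le_of_dvd (by omega) ⟨x.1, by rw [mul_comm]; exact hx.1.symm⟩
  rw [tb_apply, if_pos (h3.trans hn)]

lemma cX_bound (ha : Sm a) (hb : Sm b) {κ : ℝ} (hκ : 0 < κ) : ∃ C : ℝ, 1 ≤ C ∧ ∀ X n : ℕ, 1 ≤ n →
    ‖cX a b X n‖ ≤ C * (n : ℝ) ^ κ := by
  obtain ⟨A, hA, h1⟩ := ha (κ / 2) (by positivity)
  obtain ⟨B, hB, h2⟩ := hb (κ / 2) (by positivity)
  obtain ⟨D, hD, h3⟩ := div_bound (ε := κ / 2) (by positivity)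
  refine ⟨A * B * D + 1, by
    have : 0 ≤ A * B * D := by positivity
    linarith, fun X n hn => ?_⟩
  have h4 : ∀ n : ℕ, 1 ≤ n → ‖tb b X n‖ ≤ B * (n : ℝ) ^ (κ / 2) := by
    intro n hn
    rw [tb_apply]
    split_ifs
    · exact h2 n hn
    · rw [norm_zero]; positivity
  have hn0 : (0 : ℝ) < n := by exact_mod_cast hn
  refine (norm_mul_le_of hA.le hB.le h1 h4 hn).trans ?_
  calc A * B * ((n.divisors.card : ℝ) * (n : ℝ) ^ (κ / 2)) ≤
        A * B * ((D * (n : ℝ) ^ (κ / 2)) * (n : ℝ) ^ (κ / 2)) := by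
        have := h3 n hn
        gcongr
    _ = A * B * D * ((n : ℝ) ^ (κ / 2) * (n : ℝ) ^ (κ / 2)) := by ring
    _ = A * B * D * (n : ℝ) ^ κ := by
        rw [← Real.rpow_add hn0]
        congr 2
        ring
    _ ≤ _ := by
        have : 0 ≤ (n : ℝ) ^ κ := by positivity
        nlinarith

lemma term_tb {X n : ℕ} (hn : n ∉ Finset.Icc 1 X) (s : ℂ) :
    LSeries.term (fun n => tb b X n) s n = 0 := by
  rcases Nat.eq_zero_or_pos n with rfl | h
  · simp
  · rw [Finset.mem_Icc] at hn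
    rw [LSeries.term_of_ne_zero (by omega)]
    rw [tb_apply, if_neg (by omega)]
    simp

lemma summ_tb (X : ℕ) (s : ℂ) : LSeriesSummable (fun n => tb b X n) s :=
  summable_of_ne_finset_zero (s := Finset.Icc 1 X) fun _ hn => term_tb hn s

lemma LSeries_tb (X : ℕ) (s : ℂ) : LSeries (fun n => tb b X n) s = BX b X s := by
  unfold LSeries BX
  rw [tsum_eq_sum (s := Finset.Icc 1 X) fun n hn => term_tb hn s]
  refine Finset.sum_congr rfl fun n hn => ?_
  rw [Finset.mem_Icc] at hn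
  rw [LSeries.term_of_ne_zero (by omega), tb_apply, if_pos hn.2, Complex.cpow_neg]
  rfl

lemma LX.cX_ser (h : LX F a b) (X : ℕ) {s : ℂ} (hs : 1 < s.re) :
    LSeries (fun n => cX a b X n) s = F s * BX b X s := by
  unfold cX
  rw [ArithmeticFunction.LSeries_mul' (Sm.summ h.bda hs) (summ_tb X s), LSeries_tb, h.ser s hs]

lemma LX.cX_summ (h : LX F a b) (X : ℕ) {s : ℂ} (hs : 1 < s.re) :
    LSeriesSummable (fun n => cX a b X n) s := by
  unfold cX
  exact ArithmeticFunction.LSeriesSummable_mul (Sm.summ h.bda hs) (summ_tb X s)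

lemma LX.cX_absc (h : LX F a b) (X : ℕ) {s : ℂ} (hs : 1 < s.re) :
    LSeries.abscissaOfAbsConv (fun n => cX a b X n) < s.re := by
  obtain ⟨x, hx1, hx2⟩ := exists_between hs
  have h1 : LSeriesSummable (fun n => cX a b X n) (x : ℂ) := h.cX_summ X (by simpa using hx1)
  refine (LSeriesSummable.abscissaOfAbsConv_le h1).trans_lt ?_
  simp only [Complex.ofReal_re]
  exact_mod_cast hx2

/-- Taylor coefficients to the right of `1` -/
lemma LX.hasSum_tc (h : LX F a b) (X k : ℕ) {c : ℂ} (hc : 1 < c.re) :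
    HasSum (fun n : ℕ => cX a b X n * (Real.log n : ℂ) ^ k * (n : ℂ) ^ (-c))
      ((-1) ^ k * (k.factorial : ℂ) * tc (fun s => F s * BX b X s) c k) := by
  have h1 : (fun s => F s * BX b X s) =ᶠ[𝓝 c] LSeries (fun n => cX a b X n) := by
    have : {s : ℂ | 1 < s.re} ∈ 𝓝 c := (isOpen_lt continuous_const Complex.continuous_re).mem_nhds hc
    filter_upwards [this] with s hs
    exact (h.cX_ser X hs).symm
  have h2 : iteratedDeriv k (fun s => F s * BX b X s) c =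
      (-1) ^ k * LSeries (LSeries.logMul^[k] (fun n => cX a b X n)) c := by
    rw [h1.iteratedDeriv_eq k, LSeries_iteratedDeriv k (h.cX_absc X hc)]
  have h3 : (-1) ^ k * (k.factorial : ℂ) * tc (fun s => F s * BX b X s) c k =
      LSeries (LSeries.logMul^[k] (fun n => cX a b X n)) c := by
    unfold tc
    rw [h2]
    have : (k.factorial : ℂ) ≠ 0 := by exact_mod_cast Nat.factorial_ne_zero k
    have h4 : ((-1 : ℂ) ^ k) * (-1) ^ k = 1 := by rw [← mul_pow]; norm_num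
    calc (-1) ^ k * (k.factorial : ℂ) * ((k.factorial : ℂ)⁻¹ * ((-1) ^ k *
        LSeries (LSeries.logMul^[k] (fun n => cX a b X n)) c)) = ((-1) ^ k * (-1) ^ k) *
        ((k.factorial : ℂ) * (k.factorial : ℂ)⁻¹) *
          LSeries (LSeries.logMul^[k] (fun n => cX a b X n)) c := by ring
      _ = _ := by rw [h4, mul_inv_cancel₀ this]; ring
  rw [h3]
  have h5 : LSeriesSummable (LSeries.logMul^[k] (fun n => cX a b X n)) c := by
    apply LSeriesSummable_of_abscissaOfAbsConv_lt_re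
    rw [LSeries.absicssaOfAbsConv_logPowMul]
    exact h.cX_absc X hc
  have h6 := h5.LSeriesHasSum
  unfold LSeriesHasSum at h6
  convert! h6 using 1
  ext n
  rcases Nat.eq_zero_or_pos n with rfl | h
  · simp
  · rw [LSeries.term_of_ne_zero (by omega), logMul_iter, Complex.cpow_neg]
    ring

end Pool.Agent.K9h52.GX
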