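import Pool.Agent.K9h52.GX.Coef

/-!
Detection of a zero from a centre with real part `2`.
-/

open Complex Metric Set Filter Topology

namespace Pool.Agent.K9h52.GX

open DH31 DX

variable {F : ℂ → ℂ} {a b : ArithmeticFunction ℂ}

/-- coefficients of the detecting polynomials -/
noncomputable def bdF (a b : ArithmeticFunction ℂ) (r : ℝ) (k X n : ℕ) : ℂ :=
  cX a b X n * (((r * Real.log n) ^ k / k.factorial : ℝ) : ℂ) * (n : ℂ) ^ (-(2 : ℝ) : ℂ)

/-- the terms of the tail -/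
lemma tail_termF {C : ℝ}
    (hC : ∀ X n : ℕ, 1 ≤ n → ‖cX a b X n‖ ≤ C * (n : ℝ) ^ (1 / 4 : ℝ))
    {X k n : ℕ} (hn : 1 ≤ n) {ϱ : ℝ} (h0 : 0 ≤ ϱ) (h1 : ϱ ≤ 2) :
    ‖cX a b X n‖ * (ϱ * Real.log n) ^ k / k.factorial * (n : ℝ) ^ (-2 : ℝ) ≤
      C * 8 ^ k * (n : ℝ) ^ (-(3 / 2) : ℝ) := by
  have hn1 : (1 : ℝ) ≤ n := by exact_mod_cast hn
  have hlog : 0 ≤ Real.log n := Real.log_nonneg hn1
  have e1 : (ϱ * Real.log n) ^ k / k.factorial ≤ 8 ^ k * (n : ℝ) ^ (1 / 4 : ℝ) := by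
    have h2 := Real.pow_div_factorial_le_exp (ϱ * Real.log n * (1 / 8)) (by positivity) k
    have h3 : (ϱ * Real.log n) ^ k / k.factorial =
        8 ^ k * ((ϱ * Real.log n * (1 / 8)) ^ k / k.factorial) := by
      rw [mul_pow _ (1 / 8 : ℝ), div_pow, one_pow]
      field_simp
    rw [h3]
    have h4 : Real.exp (ϱ * Real.log n * (1 / 8)) ≤ (n : ℝ) ^ (1 / 4 : ℝ) := by
      rw [Real.rpow_def_of_pos (by linarith)]
      apply Real.exp_le_exp.2
      nlinarith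
    have h5 := h2.trans h4
    gcongr
  have e2 := hC X n hn
  have hC0 : 0 ≤ C * (n : ℝ) ^ (1 / 4 : ℝ) := (norm_nonneg _).trans e2
  calc ‖cX a b X n‖ * (ϱ * Real.log n) ^ k / k.factorial * (n : ℝ) ^ (-2 : ℝ)
      = ‖cX a b X n‖ * ((ϱ * Real.log n) ^ k / k.factorial) * (n : ℝ) ^ (-2 : ℝ) := by ring
    _ ≤ (C * (n : ℝ) ^ (1 / 4 : ℝ)) * (8 ^ k * (n : ℝ) ^ (1 / 4 : ℝ)) *
        (n : ℝ) ^ (-2 : ℝ) := by
        gcongr
    _ = C * 8 ^ k * ((n : ℝ) ^ (1 / 4 : ℝ) * (n : ℝ) ^ (1 / 4 : ℝ) *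
        (n : ℝ) ^ (-2 : ℝ)) := by ring
    _ = _ := by
        rw [← Real.rpow_add (by linarith), ← Real.rpow_add (by linarith)]
        congr 2
        norm_num

/-- splitting of the Taylor coefficient -/
lemma LX.split (h : LX F a b) {C W : ℝ} (hC1 : 1 ≤ C)
    (hC : ∀ X n : ℕ, 1 ≤ n → ‖cX a b X n‖ ≤ C * (n : ℝ) ^ (1 / 4 : ℝ))
    (hW : HasSum (fun m : ℕ => 1 / (m : ℝ) ^ (5 / 4 : ℝ)) W)
    {X Z k : ℕ} (hX : 1 ≤ X) (hXZ : X ≤ Z) {u : ℂ} {γ : ℝ} (hu : ‖u‖ ≤ 2) :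
    ‖(u ^ k / (k.factorial : ℂ)) * ((-1) ^ k * (k.factorial : ℂ) *
        tc (fun s => F s * BX b X s) ⟨2, γ⟩ k) - (if k = 0 then 1 else 0) -
      (u ^ k / (k.factorial : ℂ)) * ∑ n ∈ Finset.Ioc X Z, cX a b X n * (Real.log n : ℂ) ^ k *
        (n : ℂ) ^ (-(⟨2, γ⟩ : ℂ))‖ ≤ C * 8 ^ k * W * (Z : ℝ) ^ (-(1 / 4) : ℝ) := by
  set c : ℂ := ⟨2, γ⟩ with hc
  have hs := h.hasSum_tc X k (c := c) (by simp [hc])
  set S := (-1) ^ k * (k.factorial : ℂ) * tc (fun s => F s * BX b X s) c k with hS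
  set v : ℕ → ℂ := fun n => cX a b X n * (Real.log n : ℂ) ^ k * (n : ℂ) ^ (-c) with hv
  have h2 : HasSum (fun n => v (n + (Z + 1))) (S - ∑ n ∈ Finset.range (Z + 1), v n) :=
    (hasSum_nat_add_iff' (Z + 1)).2 hs
  have hZ1 : 1 ≤ Z := hX.trans hXZ
  -- the finite sum
  have h3 : ∑ n ∈ Finset.range (Z + 1), v n = (if k = 0 then 1 else 0) +
      ∑ n ∈ Finset.Ioc X Z, v n := by
    have e1 : Finset.range (Z + 1) = (Finset.range (X + 1)) ∪ (Finset.Ioc X Z) := by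
      ext n
      simp only [Finset.mem_range, Finset.mem_union, Finset.mem_Ioc]
      omega
    have e2 : Disjoint (Finset.range (X + 1)) (Finset.Ioc X Z) := by
      rw [Finset.disjoint_left]
      intro n
      simp only [Finset.mem_range, Finset.mem_Ioc]
      omega
    rw [e1, Finset.sum_union e2]
    congr 1
    rw [Finset.sum_eq_single 1]
    · simp only [hv]
      rw [cX_one h.inv hX]
      by_cases hk : k = 0
      · simp [hk]
      · simp [hk]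
    · intro n hn hn1
      simp only [Finset.mem_range] at hn
      rcases Nat.eq_zero_or_pos n with rfl | hp
      · simp [hv]
      · simp only [hv]
        rw [cX_zero h.inv (by omega) (by omega)]
        simp
    · intro hn
      exfalso
      apply hn
      simp only [Finset.mem_range]
      omega
  -- the tail
  have h4 : ‖(u ^ k / (k.factorial : ℂ)) * (S - ∑ n ∈ Finset.range (Z + 1), v n)‖ ≤
      C * 8 ^ k * W * (Z : ℝ) ^ (-(1 / 4) : ℝ) := by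
    have h5 := h2.mul_left (u ^ k / (k.factorial : ℂ))
    have hW2 : HasSum (fun n : ℕ => 1 / ((n + (Z + 1) : ℕ) : ℝ) ^ (5 / 4 : ℝ))
        (W - ∑ m ∈ Finset.range (Z + 1), 1 / (m : ℝ) ^ (5 / 4 : ℝ)) :=
      (hasSum_nat_add_iff' (Z + 1)).2 hW
    have hW3 := hW2.mul_left (C * 8 ^ k * (Z : ℝ) ^ (-(1 / 4) : ℝ))
    rw [← h5.tsum_eq]
    refine (tsum_of_norm_bounded hW3 ?_).trans ?_
    · intro n
      set m := n + (Z + 1) with hm
      have hm1 : 1 ≤ m := by omega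
      have hmr : (1 : ℝ) ≤ m := by exact_mod_cast hm1
      have hlog : 0 ≤ Real.log m := Real.log_nonneg hmr
      have e1 := tail_termF hC (X := X) (k := k) hm1 (norm_nonneg u) hu
      have e2 : ‖(u ^ k / (k.factorial : ℂ)) * v m‖ =
          ‖cX a b X m‖ * (‖u‖ * Real.log m) ^ k / k.factorial * (m : ℝ) ^ (-2 : ℝ) := by
        simp only [hv]
        rw [norm_mul, norm_mul, norm_mul, norm_div, norm_pow, norm_pow, Complex.norm_real,
          Real.norm_of_nonneg hlog, Complex.norm_natCast, Complex.norm_natCast_cpow_of_pos hm1,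
          mul_pow]
        simp only [hc, Complex.neg_re]
        ring
      rw [e2]
      refine e1.trans ?_
      have e3 : (m : ℝ) ^ (-(3 / 2) : ℝ) =
          (m : ℝ) ^ (-(1 / 4) : ℝ) * (1 / (m : ℝ) ^ (5 / 4 : ℝ)) := by
        have e7 : 1 / (m : ℝ) ^ (5 / 4 : ℝ) = (m : ℝ) ^ (-(5 / 4) : ℝ) := by
          rw [Real.rpow_neg (by linarith), one_div]
        rw [e7, ← Real.rpow_add (by linarith)]
        congr 1
        norm_num
      rw [e3]
      have e4 : (m : ℝ) ^ (-(1 / 4) : ℝ) ≤ (Z : ℝ) ^ (-(1 / 4) : ℝ) := by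
        apply Real.rpow_le_rpow_of_nonpos (by exact_mod_cast hZ1) _ (by norm_num)
        have : Z ≤ m := by omega
        exact_mod_cast this
      have e5 : 0 ≤ 1 / (m : ℝ) ^ (5 / 4 : ℝ) := by positivity
      calc C * 8 ^ k * ((m : ℝ) ^ (-(1 / 4) : ℝ) * (1 / (m : ℝ) ^ (5 / 4 : ℝ)))
          ≤ C * 8 ^ k * ((Z : ℝ) ^ (-(1 / 4) : ℝ) * (1 / (m : ℝ) ^ (5 / 4 : ℝ))) := by
            gcongr
        _ = _ := by ring
    · have e6 : W - ∑ m ∈ Finset.range (Z + 1), 1 / (m : ℝ) ^ (5 / 4 : ℝ) ≤ W := by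
        have : 0 ≤ ∑ m ∈ Finset.range (Z + 1), 1 / (m : ℝ) ^ (5 / 4 : ℝ) :=
          Finset.sum_nonneg fun m _ => by positivity
        linarith
      calc C * 8 ^ k * (Z : ℝ) ^ (-(1 / 4) : ℝ) *
            (W - ∑ m ∈ Finset.range (Z + 1), 1 / (m : ℝ) ^ (5 / 4 : ℝ))
          ≤ C * 8 ^ k * (Z : ℝ) ^ (-(1 / 4) : ℝ) * W := by gcongr
        _ = _ := by ring
  rw [h3] at h4
  have h6 : (u ^ k / (k.factorial : ℂ)) * S - (if k = 0 then 1 else 0) -
      (u ^ k / (k.factorial : ℂ)) * ∑ n ∈ Finset.Ioc X Z, v n =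
      (u ^ k / (k.factorial : ℂ)) * (S - ((if k = 0 then 1 else 0) +
      ∑ n ∈ Finset.Ioc X Z, v n)) := by
    by_cases hk : k = 0
    · subst hk; simp; ring
    · simp only [hk, if_false]; ring
  rw [h6]
  exact h4

lemma BX_diff (b : ArithmeticFunction ℂ) (X : ℕ) : Differentiable ℂ (BX b X) := by
  unfold BX
  refine Differentiable.fun_sum fun m hm => ?_
  rw [Finset.mem_Icc] at hm
  refine (differentiable_const _).mul ?_
  intro s
  refine DifferentiableAt.const_cpow (by fun_prop) (Or.inl ?_)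
  have : m ≠ 0 := by omega
  exact_mod_cast this

lemma Sm.BX_le (hb : Sm b) : ∃ C : ℝ, 0 < C ∧ ∀ (X : ℕ) (s : ℂ), 1 / 4 ≤ s.re →
    ‖BX b X s‖ ≤ C * X := by
  obtain ⟨C, hC, h⟩ := hb (1 / 4) (by norm_num)
  refine ⟨C, hC, fun X s hs => ?_⟩
  unfold BX
  have key : ∀ m ∈ Finset.Icc 1 X, ‖b m * (m : ℂ) ^ (-s)‖ ≤ C := by
    intro m hm
    rw [Finset.mem_Icc] at hm
    have hm1 : (1 : ℝ) ≤ m := by exact_mod_cast hm.1
    have hm0 : (0 : ℝ) < m := by linarith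
    rw [norm_mul, Complex.norm_natCast_cpow_of_pos (by omega), Complex.neg_re]
    have h2 : (m : ℝ) ^ (-s.re) ≤ (m : ℝ) ^ (-(1 / 4) : ℝ) :=
      Real.rpow_le_rpow_of_exponent_le hm1 (by linarith)
    calc ‖b m‖ * (m : ℝ) ^ (-s.re) ≤ (C * (m : ℝ) ^ (1 / 4 : ℝ)) * (m : ℝ) ^ (-(1 / 4) : ℝ) :=
          mul_le_mul (h m hm.1) h2 (by positivity) (by positivity)
      _ = C * ((m : ℝ) ^ (1 / 4 : ℝ) * (m : ℝ) ^ (-(1 / 4) : ℝ)) := by ring
      _ = C := by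
          rw [← Real.rpow_add hm0]
          norm_num
  refine (norm_sum_le_of_le _ key).trans ?_
  simp only [Finset.sum_const, Nat.card_Icc, add_tsub_cancel_right, nsmul_eq_mul]
  rw [mul_comm]

/-- the truncated Taylor expansion at a zero is small -/
lemma LX.taylor_small (h : LX F a b) {Cb δ η T y r : ℝ} (hCb : 0 < Cb)
    (hCb' : ∀ (X : ℕ) (s : ℂ), 1 / 4 ≤ s.re → ‖BX b X s‖ ≤ Cb * X)
    (hδ : 0 < δ) (hδ1 : δ ≤ 1 / 4) (hη : 0 < η) (hT1 : 1 ≤ T)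
    (hT : 8 * Cb / δ ≤ T ^ η) {ρ : ℂ} (hρ : F ρ = 0)
    (hr0 : 0 < r) (hr : r ≤ 3 / 2) (hρr : ‖ρ - ⟨2, y⟩‖ ≤ r)
    (hb : ∀ z ∈ closedBall (⟨2, y⟩ : ℂ) (r + δ), ‖F z‖ ≤ T ^ η) :
    ‖∑ k ∈ Finset.range (KK δ η T), tc (fun s => F s * BX b ⌊T ^ η⌋₊ s) ⟨2, y⟩ k *
      (ρ - ⟨2, y⟩) ^ k‖ ≤ 1 / 4 := by
  set c : ℂ := ⟨2, y⟩ with hc
  set X := ⌊T ^ η⌋₊ with hX
  set K := KK δ η T with hK
  have hTη : 0 < T ^ η := by positivity
  have hdiff : DifferentiableOn ℂ (fun s => F s * BX b X s) (ball c (r + 2 * δ)) :=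
    (h.diff.mul (BX_diff b X)).differentiableOn
  have hM : ∀ z ∈ sphere c (r + δ), ‖F z * BX b X z‖ ≤ T ^ η * (Cb * T ^ η) := by
    intro z hz
    have hz' := sphere_subset_closedBall hz
    have h1 := (ball_re_im (t := y) hz').1
    rw [norm_mul]
    refine mul_le_mul (hb z hz') ?_ (norm_nonneg _) hTη.le
    refine (hCb' X z (by linarith)).trans ?_
    have := Nat.floor_le hTη.le
    gcongr
  have key := tail_le (f := fun s => F s * BX b X s) (c := c) (z := ρ) (r := r)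
    (s := r + δ) (R := r + 2 * δ) (M := T ^ η * (Cb * T ^ η)) (by linarith) (by linarith) (by linarith)
    (by linarith) hdiff hM hρr K
  simp only [hρ, zero_mul, zero_sub, norm_neg] at key
  refine key.trans ?_
  have hs2 : r + δ ≤ 2 := by linarith
  have hs0 : 0 < r + δ := by linarith
  have hq : r / (r + δ) ≤ 1 - δ / 2 := by
    rw [div_le_iff₀ hs0]
    nlinarith
  have hq0 : 0 ≤ r / (r + δ) := div_nonneg (by linarith) hs0.le
  have hqK : (r / (r + δ)) ^ K ≤ T ^ (-(3 * η)) := by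
    calc (r / (r + δ)) ^ K ≤ (1 - δ / 2) ^ K := by gcongr
      _ ≤ (Real.exp (-(δ / 2))) ^ K := by
        have h1 : 1 - δ / 2 ≤ Real.exp (-(δ / 2)) := by
          have := Real.add_one_le_exp (-(δ / 2)); linarith
        have h0 : 0 ≤ 1 - δ / 2 := by linarith
        gcongr
      _ = Real.exp (-(δ / 2) * K) := by
        rw [← Real.exp_nat_mul]; congr 1; ring
      _ ≤ T ^ (-(3 * η)) := by
        rw [Real.rpow_def_of_pos (by linarith)]
        apply Real.exp_le_exp.2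
        have h2 : 6 * η / δ * Real.log T ≤ K := by
          have := Nat.le_ceil (6 * η / δ * Real.log T)
          rw [hK]; unfold KK; push_cast; linarith
        have h3 : δ / 2 * (6 * η / δ * Real.log T) ≤ δ / 2 * K := by gcongr
        have h4 : δ / 2 * (6 * η / δ * Real.log T) = Real.log T * (3 * η) := by field_simp; ring
        rw [h4] at h3
        linarith
  have h1q : δ / 2 ≤ 1 - r / (r + δ) := by linarith
  have e1 : T ^ η * T ^ η * T ^ (-(3 * η)) = (T ^ η)⁻¹ := by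
    rw [← Real.rpow_add (by linarith), ← Real.rpow_add (by linarith), ← Real.rpow_neg (by linarith)]
    congr 1; ring
  calc T ^ η * (Cb * T ^ η) * (r / (r + δ)) ^ K / (1 - r / (r + δ))
      ≤ T ^ η * (Cb * T ^ η) * T ^ (-(3 * η)) / (δ / 2) := by gcongr
    _ = Cb * (T ^ η * T ^ η * T ^ (-(3 * η))) / (δ / 2) := by ring
    _ = Cb * (T ^ η)⁻¹ / (δ / 2) := by rw [e1]
    _ ≤ Cb * (8 * Cb / δ)⁻¹ / (δ / 2) := by gcongr
    _ = 1 / 4 := by field_simp; norm_num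

set_option maxHeartbeats 1000000 in
theorem LX.detect (h : LX F a b) {δ η : ℝ} (hδ : 0 < δ) (hδ1 : δ ≤ 1 / 4) (hη : 0 < η) :
    ∃ T0 : ℝ, 1 ≤ T0 ∧ ∀ T : ℝ, T0 ≤ T → ∀ y : ℝ, ∀ ρ : ℂ, F ρ = 0 →
      ∀ r r0 : ℝ, 0 < r → r ≤ r0 → r0 ≤ 3 / 2 → ‖ρ - ⟨2, y⟩‖ ≤ r →
      (∀ z ∈ closedBall (⟨2, y⟩ : ℂ) (r + δ), ‖F z‖ ≤ T ^ η) →
      ∃ k < KK δ η T, 1 / (2 * (KK δ η T : ℝ)) ≤
        ‖∑ n ∈ Finset.Ioc ⌊T ^ η⌋₊ (2 ^ (16 * KK δ η T)),
          bdF a b r0 k ⌊T ^ η⌋₊ n * (n : ℂ) ^ (-(y : ℂ) * I)‖ := by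
  obtain ⟨q, hq⟩ : ∃ q : ℕ, q = 16 := ⟨16, rfl⟩
  have hq2 : (2 : ℝ) ^ q = 65536 := by rw [hq]; norm_num
  have hqr : (q : ℝ) = 16 := by rw [hq]; norm_num
  rw [← hq]
  clear hq
  obtain ⟨C, hC1, hC⟩ := cX_bound h.bda h.bdb (κ := 1 / 4) (by positivity)
  obtain ⟨Cb, hCb, hCb'⟩ := Sm.BX_le h.bdb
  have hWs : Summable (fun m : ℕ => 1 / (m : ℝ) ^ (5 / 4 : ℝ)) :=
    Real.summable_one_div_nat_rpow.mpr (by norm_num)
  set W := ∑' m : ℕ, 1 / (m : ℝ) ^ (5 / 4 : ℝ) with hWdef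
  have hW : HasSum (fun m : ℕ => 1 / (m : ℝ) ^ (5 / 4 : ℝ)) W := hWs.hasSum
  have hW0 : 0 ≤ W := tsum_nonneg fun m => by positivity
  -- tail constant
  have hlim : Filter.Tendsto (fun n : ℕ => (n : ℝ) * (1 / 2 : ℝ) ^ n) Filter.atTop (𝓝 0) :=
    tendsto_self_mul_const_pow_of_lt_one (by norm_num) (by norm_num)
  have hlim2 : ∀ᶠ n : ℕ in Filter.atTop, (n : ℝ) * (1 / 2 : ℝ) ^ n * (C * W) ≤ 1 / 4 := by
    have h1 := hlim.mul_const (C * W)
    rw [zero_mul] at h1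
    filter_upwards [h1.eventually_lt_const (show (0 : ℝ) < 1 / 4 by norm_num)] with n hn
    exact hn.le
  obtain ⟨K0, hK0⟩ := Filter.eventually_atTop.1 hlim2
  refine ⟨max (max 1 (Real.exp ((K0 : ℝ) * δ / (6 * η)))) ((8 * Cb / δ) ^ (1 / η)),
    (le_max_left _ _).trans (le_max_left _ _), ?_⟩
  intro T hT y ρ hρ r r0 hr hrr0 hr0 hρr hb
  have hT1 : 1 ≤ T := (le_max_left _ _).trans ((le_max_left _ _).trans hT)
  have hTK : Real.exp ((K0 : ℝ) * δ / (6 * η)) ≤ T :=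
    (le_max_right _ _).trans ((le_max_left _ _).trans hT)
  have hT8 : 8 * Cb / δ ≤ T ^ η := by
    have h1 : (8 * Cb / δ) ^ (1 / η) ≤ T := (le_max_right _ _).trans hT
    have h2 : ((8 * Cb / δ) ^ (1 / η)) ^ η ≤ T ^ η := by gcongr
    rwa [← Real.rpow_mul (by positivity), one_div, inv_mul_cancel₀ hη.ne', Real.rpow_one] at h2
  have hlogT : 0 ≤ Real.log T := Real.log_nonneg hT1
  have hsmall := h.taylor_small hCb hCb' hδ hδ1 hη hT1 hT8 hρ hr (hrr0.trans hr0) hρr hb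
  set c : ℂ := ⟨2, y⟩ with hc
  set X := ⌊T ^ η⌋₊ with hX
  set K := KK δ η T with hK
  set Z := 2 ^ (q * K) with hZ
  have hTη : 1 ≤ T ^ η := Real.one_le_rpow hT1 hη.le
  have hX1 : 1 ≤ X := by
    rw [hX]; exact Nat.one_le_floor_iff _ |>.2 hTη
  have hK1 : 1 ≤ K := by rw [hK]; unfold KK; omega
  have hKlog : 6 * η / δ * Real.log T ≤ K := by
    have := Nat.le_ceil (6 * η / δ * Real.log T)
    rw [hK]; unfold KK; push_cast; linarith
  have hKK0 : K0 ≤ K := by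
    have h1 : (K0 : ℝ) * δ / (6 * η) ≤ Real.log T := by
      rw [Real.le_log_iff_exp_le (by linarith)]; exact hTK
    have h2 : (K0 : ℝ) ≤ 6 * η / δ * Real.log T := by
      rw [div_le_iff₀ (by positivity)] at h1
      rw [div_mul_eq_mul_div, le_div_iff₀ hδ]
      linarith
    exact_mod_cast h2.trans hKlog
  have hZr : (Z : ℝ) = (65536 : ℝ) ^ K := by rw [hZ]; push_cast; rw [pow_mul, hq2]
  have hXZ : X ≤ Z := by
    have h1 : (X : ℝ) ≤ T ^ η := Nat.floor_le (by positivity)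
    have h2 : T ^ η ≤ Real.exp K := by
      rw [Real.rpow_def_of_pos (by linarith)]
      apply Real.exp_le_exp.2
      refine le_trans ?_ hKlog
      have : η ≤ 6 * η / δ := by
        rw [le_div_iff₀ hδ]; nlinarith
      rw [mul_comm]
      gcongr
    have h3 : Real.exp (K : ℝ) ≤ (65536 : ℝ) ^ K := by
      rw [← Real.exp_one_pow]
      have : Real.exp 1 ≤ (65536 : ℝ) := by
        have := Real.exp_one_lt_d9; linarith
      exact pow_le_pow_left₀ (Real.exp_pos _).le this K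
    have h4 : (X : ℝ) ≤ (Z : ℝ) := by
      rw [hZr]; exact h1.trans (h2.trans h3)
    exact_mod_cast h4
  -- the polynomials
  set u : ℂ := -(ρ - c) with hu
  have hur : ‖u‖ ≤ r := by rw [hu, norm_neg]; exact hρr
  have hu2 : ‖u‖ ≤ 2 := by linarith
  set P : ℕ → ℂ := fun k => (u ^ k / (k.factorial : ℂ)) * ∑ n ∈ Finset.Ioc X Z,
    cX a b X n * (Real.log n : ℂ) ^ k * (n : ℂ) ^ (-c) with hP
  set t : ℕ → ℂ := fun k => tc (fun s => F s * BX b X s) c k * (ρ - c) ^ k with ht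
  have hterm : ∀ k, ‖t k - (if k = 0 then 1 else 0) - P k‖ ≤
      C * 8 ^ k * W * (Z : ℝ) ^ (-(1 / 4) : ℝ) := by
    intro k
    have h1 := h.split hC1 hC hW (X := X) (Z := Z) (k := k) hX1 hXZ (u := u) (γ := y) hu2
    have h2 : (u ^ k / (k.factorial : ℂ)) * ((-1) ^ k * (k.factorial : ℂ) *
        tc (fun s => F s * BX b X s) ⟨2, y⟩ k) = t k := by
      simp only [ht, hu]
      have e0 : (-(ρ - c)) ^ k = (-1) ^ k * (ρ - c) ^ k := neg_pow _ _
      rw [e0]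
      have h5 : (k.factorial : ℂ) ≠ 0 := by exact_mod_cast Nat.factorial_ne_zero k
      have h4 : ((-1 : ℂ) ^ k) * (-1) ^ k = 1 := by rw [← mul_pow]; norm_num
      calc (-1) ^ k * (ρ - c) ^ k / (k.factorial : ℂ) * ((-1) ^ k * (k.factorial : ℂ) *
            tc (fun s => F s * BX b X s) ⟨2, y⟩ k)
          = (((-1 : ℂ) ^ k) * (-1) ^ k) * ((k.factorial : ℂ) / (k.factorial : ℂ)) *
            (tc (fun s => F s * BX b X s) ⟨2, y⟩ k * (ρ - c) ^ k) := by ring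
        _ = _ := by rw [h4, div_self h5, one_mul, one_mul]
    rw [h2] at h1
    exact h1
  have hZpow : (Z : ℝ) ^ (-(1 / 4) : ℝ) = (1 / 16) ^ K := by
    have e0 : (65536 : ℝ) = (16 : ℝ) ^ (4 : ℝ) := by
      rw [show (4 : ℝ) = ((4 : ℕ) : ℝ) by norm_num, Real.rpow_natCast]; norm_num
    rw [hZr, e0, ← Real.rpow_natCast, ← Real.rpow_mul (by norm_num), ← Real.rpow_mul (by norm_num)]
    have e2 : (4 : ℝ) * ((K : ℝ) * (-(1 / 4))) = -(K : ℝ) := by ring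
    rw [e2, Real.rpow_neg (by norm_num), Real.rpow_natCast, one_div, inv_pow]
  have hsum1 : ‖∑ k ∈ Finset.range K, (t k - (if k = 0 then 1 else 0) - P k)‖ ≤ 1 / 4 := by
    have h1 : ∀ k ∈ Finset.range K, ‖t k - (if k = 0 then 1 else 0) - P k‖ ≤
        C * 8 ^ K * W * (1 / 16) ^ K := by
      intro k hk
      rw [Finset.mem_range] at hk
      refine (hterm k).trans ?_
      rw [hZpow]
      have : (8 : ℝ) ^ k ≤ 8 ^ K :=
        pow_le_pow_right₀ (by norm_num) hk.le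
      gcongr
    refine (norm_sum_le_of_le _ h1).trans ?_
    rw [Finset.sum_const, Finset.card_range, nsmul_eq_mul]
    have h2 := hK0 K hKK0
    have e0 : (1 / 16 : ℝ) ^ K * 8 ^ K = (1 / 2) ^ K := by
      rw [← mul_pow]; congr 1; norm_num
    calc (K : ℝ) * (C * 8 ^ K * W * (1 / 16) ^ K) =
          (K : ℝ) * ((1 / 16) ^ K * 8 ^ K) * (C * W) := by
          ring
      _ = (K : ℝ) * (1 / 2 : ℝ) ^ K * (C * W) := by rw [e0]
      _ ≤ 1 / 4 := h2
  have hsum2 : ∑ k ∈ Finset.range K, (if k = 0 then (1 : ℂ) else 0) = 1 := by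
    rw [Finset.sum_ite_eq' (Finset.range K) 0 (fun _ => (1 : ℂ))]
    simp only [Finset.mem_range]
    rw [if_pos (by omega)]
  have hPsum : 1 / 2 ≤ ‖∑ k ∈ Finset.range K, P k‖ := by
    rw [Finset.sum_sub_distrib, Finset.sum_sub_distrib, hsum2] at hsum1
    have h1 : (1 : ℂ) = (∑ k ∈ Finset.range K, t k) - ((∑ k ∈ Finset.range K, t k) - 1 -
        ∑ k ∈ Finset.range K, P k) - ∑ k ∈ Finset.range K, P k := by ring
    have h2 : (1 : ℝ) ≤ 1 / 4 + 1 / 4 + ‖∑ k ∈ Finset.range K, P k‖ := by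
      calc (1 : ℝ) = ‖(1 : ℂ)‖ := by simp
        _ = ‖(∑ k ∈ Finset.range K, t k) - ((∑ k ∈ Finset.range K, t k) - 1 -
        ∑ k ∈ Finset.range K, P k) - ∑ k ∈ Finset.range K, P k‖ := by rw [← h1]
        _ ≤ ‖∑ k ∈ Finset.range K, t k‖ + ‖(∑ k ∈ Finset.range K, t k) - 1 -
        ∑ k ∈ Finset.range K, P k‖ + ‖∑ k ∈ Finset.range K, P k‖ := by
          refine (norm_sub_le _ _).trans ?_
          gcongr
          exact norm_sub_le _ _
        _ ≤ _ := by gcongr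
    linarith
  -- pigeonhole
  have hex : ∃ k < K, 1 / (2 * (K : ℝ)) ≤ ‖P k‖ := by
    by_contra hcon
    push Not at hcon
    have h1 : ‖∑ k ∈ Finset.range K, P k‖ < 1 / 2 := by
      calc ‖∑ k ∈ Finset.range K, P k‖ ≤ ∑ k ∈ Finset.range K, ‖P k‖ := norm_sum_le _ _
        _ < ∑ k ∈ Finset.range K, 1 / (2 * (K : ℝ)) := by
          refine Finset.sum_lt_sum_of_nonempty ⟨0, Finset.mem_range.2 (by omega)⟩ fun k hk => ?_
          exact hcon k (Finset.mem_range.1 hk)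
        _ = 1 / 2 := by
          rw [Finset.sum_const, Finset.card_range, nsmul_eq_mul]
          have : (K : ℝ) ≠ 0 := by positivity
          field_simp
    linarith
  obtain ⟨k, hk, hPk⟩ := hex
  refine ⟨k, hk, hPk.trans ?_⟩
  -- replace the exponent
  have hPn : ‖P k‖ = ‖u‖ ^ k / k.factorial * ‖∑ n ∈ Finset.Ioc X Z,
    cX a b X n * (Real.log n : ℂ) ^ k * (n : ℂ) ^ (-c)‖ := by
    simp only [hP]
    rw [norm_mul, norm_div, norm_pow, Complex.norm_natCast]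
  have hQ : ∑ n ∈ Finset.Ioc X Z, bdF a b r0 k X n * (n : ℂ) ^ (-(y : ℂ) * I) =
      ((r0 ^ k / k.factorial : ℝ) : ℂ) * ∑ n ∈ Finset.Ioc X Z,
        cX a b X n * (Real.log n : ℂ) ^ k * (n : ℂ) ^ (-c) := by
    rw [Finset.mul_sum]
    refine Finset.sum_congr rfl fun n hn => ?_
    rw [Finset.mem_Ioc] at hn
    have hn0 : (n : ℂ) ≠ 0 := by
      have : n ≠ 0 := by omega
      exact_mod_cast this
    have hcc : -c = (-(2 : ℝ) : ℂ) + (-(y : ℂ) * I) := by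
      apply Complex.ext <;> simp [hc]
    rw [hcc, Complex.cpow_add _ _ hn0]
    unfold bdF
    push_cast
    rw [mul_pow]
    ring
  rw [hPn, hQ, norm_mul, Complex.norm_real, Real.norm_of_nonneg (by
    have : 0 ≤ r0 := by linarith
    positivity)]
  have : ‖u‖ ≤ r0 := hur.trans hrr0
  gcongr

end Pool.Agent.K9h52.GX
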