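import Pool.Agent.K9h52.GX.Det

/-!
The number of unit intervals that contain the height of a good centre.
-/

open Complex Metric MeasureTheory Set Filter Topology

namespace Pool.Agent.K9h52.GX

open DH31 DX

variable {F : ℂ → ℂ} {a b : ArithmeticFunction ℂ}

lemma bdF_norm_le {D ς σ : ℝ} {X : ℕ} (hD : 0 < D)
    (h : ∀ n : ℕ, 1 ≤ n → ‖cX a b X n‖ ≤ D * (n : ℝ) ^ ς) (hσ : σ ≤ 2) {k n : ℕ} (hn : 1 ≤ n) :
    ‖((1 / D : ℝ) : ℂ) * bdF a b (2 - σ) k X n‖ ≤ (n.divisors.card : ℝ) * (n : ℝ) ^ (-(σ - ς)) := by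
  have hn1 : (1 : ℝ) ≤ n := by exact_mod_cast hn
  have hn0 : (0 : ℝ) < n := by linarith
  have hlog : 0 ≤ Real.log n := Real.log_nonneg hn1
  have h2σ : 0 ≤ 2 - σ := by linarith
  unfold bdF
  rw [norm_mul, norm_mul, norm_mul, Complex.norm_real, Complex.norm_real,
    Real.norm_of_nonneg (by positivity), Real.norm_of_nonneg (by positivity),
    Complex.norm_natCast_cpow_of_pos (by omega)]
  have h1 := Real.pow_div_factorial_le_exp ((2 - σ) * Real.log n) (by positivity) k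
  have h2 : Real.exp ((2 - σ) * Real.log n) = (n : ℝ) ^ (2 - σ) := by
    rw [Real.rpow_def_of_pos (by linarith), mul_comm]
  rw [h2] at h1
  have h3 := h n hn
  have h4 : (-((2 : ℝ) : ℂ)).re = -2 := by
    rw [Complex.neg_re, Complex.ofReal_re]
  rw [h4]
  have hd : (1 : ℝ) ≤ n.divisors.card := by
    have : 0 < n.divisors.card := Finset.card_pos.2 ⟨1, Nat.one_mem_divisors.2 (by omega)⟩
    exact_mod_cast this
  calc 1 / D * (‖cX a b X n‖ * (((2 - σ) * Real.log n) ^ k / k.factorial) * (n : ℝ) ^ (-2 : ℝ))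
      ≤ 1 / D * ((D * (n : ℝ) ^ ς) * (n : ℝ) ^ (2 - σ) * (n : ℝ) ^ (-2 : ℝ)) := by gcongr
    _ = 1 * ((n : ℝ) ^ ς * (n : ℝ) ^ (2 - σ) * (n : ℝ) ^ (-2 : ℝ)) := by field_simp
    _ = 1 * (n : ℝ) ^ (-(σ - ς)) := by
      rw [← Real.rpow_add hn0, ← Real.rpow_add hn0]
      congr 2
      ring
    _ ≤ _ := by gcongr

set_option maxHeartbeats 1000000 in
theorem LX.det_count (h : LX F a b) {κ δ C0 ς : ℝ} {J : Set ℝ} {e : ℝ → ℝ} (hκ : 0 < κ)
    (hδ : 0 < δ) (hδ1 : δ ≤ 1 / 4) (hς : 0 < ς) (hς1 : ς ≤ 1) (hJ : J ⊆ Icc (1 / 2) 1)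
    (hblk : Blk κ (κ / 200 * δ / 2) C0 J e) :
    ∃ C : ℝ, 0 < C ∧ ∃ T0 : ℝ, 1 ≤ T0 ∧ ∀ T : ℝ, T0 ≤ T → ∀ H : ℝ, 1 ≤ H → H ≤ T →
      ∀ σ : ℝ, σ - ς ∈ J → ∀ M0 N0 : ℕ, (N0 : ℝ) ≤ C0 * H →
      ∀ S : Finset ℕ, S ⊆ Finset.Ico M0 (M0 + N0) →
      (∀ n ∈ S, ∃ y : ℝ, (n : ℝ) ≤ y ∧ y ≤ n + 1 ∧ ∃ r : ℝ, 0 < r ∧ r ≤ 2 - σ ∧ ∃ ρ : ℂ,
        F ρ = 0 ∧ ‖ρ - ⟨2, y⟩‖ ≤ r ∧
        ∀ z ∈ closedBall (⟨2, y⟩ : ℂ) (r + δ), ‖F z‖ ≤ T ^ (κ / 200 * δ)) →
      (S.card : ℝ) ≤ C * (T ^ (7 * κ) * H ^ (e (σ - ς))) := by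
  set η : ℝ := κ / 200 * δ with hη'
  have hη : 0 < η := by positivity
  obtain ⟨T1, hT1, hdet⟩ := h.detect hδ hδ1 hη
  obtain ⟨D, hD1, hD⟩ := cX_bound h.bda h.bdb hς
  have hD0 : 0 < D := by linarith
  obtain ⟨m0, C, hC, T2, hT2, hblock⟩ := hblk
  obtain ⟨q, hq⟩ : ∃ q : ℕ, q = 16 := ⟨16, rfl⟩
  have hqr : (q : ℝ) = 16 := by rw [hq]; norm_num
  have ev1 := ev_log ((q + 1) * (6 * η / δ + 2) ^ 2) κ 2 hκ
  have ev2 : ∀ᶠ T : ℝ in atTop, 1 ≤ Real.log T := Real.tendsto_log_atTop.eventually_ge_atTop _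
  have ev3 := ev_log ((2 * D * (q + 1) * (6 * η / δ + 2) ^ 2) ^ (6 * m0)) κ (12 * m0) hκ
  have ev4 : ∀ᶠ T : ℝ in atTop, Real.exp (2 * q) ≤ T ^ (κ / 2) :=
    (tendsto_rpow_atTop (show 0 < κ / 2 by positivity)).eventually_ge_atTop _
  have ev5 : ∀ᶠ T : ℝ in atTop, 2 ≤ T ^ (η / 2) :=
    (tendsto_rpow_atTop (show 0 < η / 2 by positivity)).eventually_ge_atTop _
  obtain ⟨T3, hT3⟩ := Filter.eventually_atTop.1 ((ev1.and ev2).and ((ev3.and ev4).and ev5))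
  refine ⟨C, hC, max (max T1 T2) T3, (hT1.trans (le_max_left _ _)).trans (le_max_left _ _), ?_⟩
  intro T hT H hH1 hHT σ hσ M0 N0 hN0 S hSM hS
  obtain ⟨hσ1, hσ2⟩ := hJ hσ
  have hσ22 : σ ≤ 2 := by linarith
  have hTT1 : T1 ≤ T := (le_max_left _ _).trans ((le_max_left _ _).trans hT)
  have hTT2 : T2 ≤ T := (le_max_right _ _).trans ((le_max_left _ _).trans hT)
  obtain ⟨⟨e1, e2⟩, ⟨⟨e3, e4⟩, e5⟩⟩ := hT3 T ((le_max_right _ _).trans hT)
  have hT1' : 1 ≤ T := hT1.trans hTT1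
  have hTpos : 0 < T := by linarith
  choose! y hy1 hy2 r hr0 hr ρ hρ hρr hb using hS
  set K := KK δ η T with hK
  have hK1 : 1 ≤ K := by rw [hK]; unfold KK; omega
  have hK1r : (1 : ℝ) ≤ K := by exact_mod_cast hK1
  have hKle : (K : ℝ) ≤ (6 * η / δ + 2) * Real.log T := KK_le hδ hη e2
  set X := ⌊T ^ η⌋₊ with hX
  set Z := 2 ^ (q * K) with hZ
  have hZJ : Z < 2 ^ ((q + 1) * K) := by
    rw [hZ]
    exact Nat.pow_lt_pow_right (by norm_num) (by nlinarith)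
  -- Z is small
  have hZsmall : (Z : ℝ) ≤ T ^ κ := by
    have h1 : (Z : ℝ) ≤ Real.exp (q * K) := by
      rw [hZ]
      push_cast
      have h2 : (2 : ℝ) ≤ Real.exp 1 := by
        have h3 : (2.7182818283 : ℝ) ≤ Real.exp 1 := Real.exp_one_gt_d9.le
        linarith
      calc (2 : ℝ) ^ (q * K) ≤ (Real.exp 1) ^ (q * K) := by gcongr
        _ = Real.exp (q * K) := by rw [← Real.exp_nat_mul]; push_cast; ring_nf
    have h5 : (K : ℝ) ≤ 6 * η / δ * Real.log T + 2 := by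
      have h1 := (Nat.ceil_lt_add_one (show 0 ≤ 6 * η / δ * Real.log T by positivity)).le
      rw [hK]; unfold KK; push_cast; linarith
    have h60 : 6 * η / δ = 3 * κ / 100 := by rw [hη']; field_simp; ring
    have h6 : q * (K : ℝ) ≤ κ / 2 * Real.log T + 2 * q := by
      rw [h60] at h5
      rw [hqr]
      nlinarith
    calc (Z : ℝ) ≤ Real.exp (q * K) := h1
      _ ≤ Real.exp (κ / 2 * Real.log T + 2 * q) := Real.exp_le_exp.2 h6
      _ = T ^ (κ / 2) * Real.exp (2 * q) := by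
        rw [Real.exp_add, Real.rpow_def_of_pos hTpos, mul_comm (κ / 2)]
      _ ≤ T ^ (κ / 2) * T ^ (κ / 2) := by gcongr
      _ = T ^ κ := by rw [← Real.rpow_add hTpos]; congr 1; ring
  classical
  set V : ℝ := 1 / (2 * D * (q + 1) * (K : ℝ) ^ 2) with hV
  have hVpos : 0 < V := by positivity
  have hVle : V ≤ 1 := by
    rw [hV, div_le_one (by positivity)]
    have a1 : (0 : ℝ) ≤ q := by positivity
    have a2 : (1 : ℝ) ≤ (K : ℝ) ^ 2 := one_le_pow₀ hK1r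
    have a3 : (1 : ℝ) ≤ D * (q + 1) := by nlinarith
    have a4 : (1 : ℝ) ≤ D * (q + 1) * (K : ℝ) ^ 2 := one_le_mul_of_one_le_of_one_le a3 a2
    linarith
  have hVm : 1 ≤ T ^ κ * V ^ (6 * m0) := by
    have h1 : 1 / V = 2 * D * (q + 1) * (K : ℝ) ^ 2 := by rw [hV]; field_simp
    have h2 : (1 / V) ^ (6 * m0) ≤ T ^ κ := by
      rw [h1]
      refine le_trans ?_ e3
      calc (2 * D * ((q : ℝ) + 1) * (K : ℝ) ^ 2) ^ (6 * m0) ≤
            (2 * D * ((q : ℝ) + 1) * ((6 * η / δ + 2) * Real.log T) ^ 2) ^ (6 * m0) := by gcongr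
        _ = (2 * D * (q + 1) * (6 * η / δ + 2) ^ 2) ^ (6 * m0) * Real.log T ^ (12 * m0) := by
            rw [mul_pow (6 * η / δ + 2), ← mul_assoc, mul_pow, ← pow_mul]
            congr 2
            ring
    rw [one_div, inv_pow] at h2
    have h3 : 0 < V ^ (6 * m0) := by positivity
    rwa [inv_le_iff_one_le_mul₀ h3] at h2
  -- the pieces
  obtain ⟨β, hβ⟩ : ∃ β : ℕ → ℕ → ℂ, β = fun k n => ((1 / D : ℝ) : ℂ) * bdF a b (2 - σ) k X n :=
    ⟨_, rfl⟩
  have hβn : ∀ k n : ℕ, 1 ≤ n → ‖β k n‖ ≤ (n.divisors.card : ℝ) * (n : ℝ) ^ (-(σ - ς)) := by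
    intro k n hn
    rw [hβ]
    exact bdF_norm_le hD0 (hD X) hσ22 hn
  let Skj : ℕ → ℕ → Finset ℕ := fun k j => S.filter fun n =>
    V ≤ ‖dp (fun n => bg (β k) X Z j n) (2 * 2 ^ j) (y n)‖
  have hcover : S ⊆ (Finset.range K).biUnion fun k => (Finset.range ((q + 1) * K)).biUnion fun j =>
      Skj k j := by
    intro n hn
    obtain ⟨k, hk, hdk⟩ := hdet T hTT1 (y n) (ρ n) (hρ n hn) (r n) (2 - σ) (hr0 n hn)
      (hr n hn) (by linarith) (hρr n hn) (hb n hn)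
    rw [← hq] at hdk
    have hdk' : 1 / (2 * D * (K : ℝ)) ≤ ‖∑ j ∈ Finset.range ((q + 1) * K),
        dp (fun n => bg (β k) X Z j n) (2 * 2 ^ j) (y n)‖ := by
      rw [← bg_dyadic hZJ, hβ]
      have hsum : ∑ m ∈ Finset.Ioc X Z, ((1 / D : ℝ) : ℂ) * bdF a b (2 - σ) k X m *
          (m : ℂ) ^ (-(y n : ℂ) * I) = ((1 / D : ℝ) : ℂ) * ∑ m ∈ Finset.Ioc X Z,
          bdF a b (2 - σ) k X m * (m : ℂ) ^ (-(y n : ℂ) * I) := by
        rw [Finset.mul_sum]
        refine Finset.sum_congr rfl fun m _ => ?_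
        ring
      rw [hsum, norm_mul, Complex.norm_real, Real.norm_of_nonneg (by positivity)]
      calc 1 / (2 * D * (K : ℝ)) = 1 / D * (1 / (2 * (K : ℝ))) := by field_simp
        _ ≤ _ := mul_le_mul_of_nonneg_left hdk (by positivity)
    have hex : ∃ j < (q + 1) * K, V ≤
        ‖dp (fun n => bg (β k) X Z j n) (2 * 2 ^ j) (y n)‖ := by
      by_contra hcon
      push Not at hcon
      have h8 : ‖∑ j ∈ Finset.range ((q + 1) * K),
        dp (fun n => bg (β k) X Z j n) (2 * 2 ^ j) (y n)‖ < 1 / (2 * D * (K : ℝ)) := by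
        calc _ ≤ ∑ j ∈ Finset.range ((q + 1) * K),
              ‖dp (fun n => bg (β k) X Z j n) (2 * 2 ^ j) (y n)‖ := norm_sum_le _ _
          _ < ∑ j ∈ Finset.range ((q + 1) * K), V := by
            refine Finset.sum_lt_sum_of_nonempty
              ⟨0, Finset.mem_range.2 (Nat.mul_pos (by omega) (by omega))⟩ fun j hj => ?_
            exact hcon j (Finset.mem_range.1 hj)
          _ = 1 / (2 * D * (K : ℝ)) := by
            rw [Finset.sum_const, Finset.card_range, nsmul_eq_mul, hV]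
            push_cast
            have : (K : ℝ) ≠ 0 := by positivity
            field_simp
      linarith
    obtain ⟨j, hj, hdj⟩ := hex
    simp only [Finset.mem_biUnion, Finset.mem_range]
    exact ⟨k, hk, j, hj, Finset.mem_filter.2 ⟨hn, hdj⟩⟩
  have hbd : ∀ k j, ((Skj k j).card : ℝ) ≤ C * (T ^ (6 * κ) * H ^ (e (σ - ς))) := by
    intro k j
    rcases (Skj k j).eq_empty_or_nonempty with hemp | ⟨n0, hn0⟩
    · rw [hemp]
      simp only [Finset.card_empty, Nat.cast_zero]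
      positivity
    -- there is a nonzero coefficient
    have hne : ∃ n, bg (β k) X Z j n ≠ 0 := by
      by_contra hcon
      push Not at hcon
      have h1 := (Finset.mem_filter.1 hn0).2
      unfold dp at h1
      simp only [hcon, zero_mul, Finset.sum_const_zero, norm_zero] at h1
      linarith
    obtain ⟨n1, hn1⟩ := hne
    have hn1s := bg_support n1 hn1
    have hn1i : X < n1 ∧ n1 ≤ Z := by
      rw [bg_apply] at hn1
      by_contra hcon
      apply hn1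
      rw [if_neg]
      rw [Finset.mem_Ioc]
      tauto
    refine hblock T hTT2 H hH1 hHT (σ - ς) hσ (bg (β k) X Z j) (2 ^ j) ?_ ?_
      bg_support (bg_norm_le (hβn k)) V hVpos hVle hVm M0 N0 hN0 (Skj k j)
      ((Finset.filter_subset _ _).trans hSM) y ?_ ?_
    · have h1 : T ^ η < X + 1 := Nat.lt_floor_add_one _
      have h2 : (X : ℝ) + 1 ≤ 2 * ((2 ^ j : ℕ) : ℝ) := by
        have : X + 1 ≤ 2 * 2 ^ j := by omega
        exact_mod_cast this
      have h3 : T ^ η = T ^ (η / 2) * T ^ (η / 2) := by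
        rw [← Real.rpow_add hTpos]; congr 1; ring
      have h4 : 2 * T ^ (η / 2) ≤ T ^ (η / 2) * T ^ (η / 2) := by gcongr
      linarith
    · refine le_trans ?_ hZsmall
      have : 2 ^ j ≤ Z := hn1s.1.trans hn1i.2
      exact_mod_cast this
    · intro n hn
      have := (Finset.mem_filter.1 hn).1
      exact ⟨hy1 n this, hy2 n this⟩
    · intro n hn
      exact (Finset.mem_filter.1 hn).2
  have hcard : (S.card : ℝ) ≤ (K : ℝ) * (((q + 1) * K : ℕ) * (C * (T ^ (6 * κ) * H ^ (e (σ - ς))))) := by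
    calc (S.card : ℝ) ≤ (((Finset.range K).biUnion fun k => (Finset.range ((q + 1) * K)).biUnion fun j =>
          Skj k j).card : ℝ) := by exact_mod_cast Finset.card_le_card hcover
      _ ≤ ∑ k ∈ Finset.range K, ∑ j ∈ Finset.range ((q + 1) * K), ((Skj k j).card : ℝ) := by
          have h1 : (((Finset.range K).biUnion fun k => (Finset.range ((q + 1) * K)).biUnion fun j =>
            Skj k j).card) ≤ ∑ k ∈ Finset.range K, ∑ j ∈ Finset.range ((q + 1) * K), (Skj k j).card :=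
            (Finset.card_biUnion_le).trans (Finset.sum_le_sum fun k _ => Finset.card_biUnion_le)
          exact_mod_cast h1
      _ ≤ ∑ k ∈ Finset.range K, ∑ j ∈ Finset.range ((q + 1) * K), C * (T ^ (6 * κ) * H ^ (e (σ - ς))) :=
          Finset.sum_le_sum fun k _ => Finset.sum_le_sum fun j _ => hbd k j
      _ = _ := by
          rw [Finset.sum_const, Finset.sum_const, Finset.card_range, Finset.card_range,
            nsmul_eq_mul, nsmul_eq_mul]
  have hK2 : (q + 1) * (K : ℝ) ^ 2 ≤ T ^ κ := by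
    refine le_trans ?_ e1
    calc (q + 1) * (K : ℝ) ^ 2 ≤ (q + 1) * ((6 * η / δ + 2) * Real.log T) ^ 2 := by gcongr
      _ = _ := by ring
  have hH0 : 0 < H := by linarith
  calc (S.card : ℝ) ≤ (K : ℝ) * (((q + 1) * K : ℕ) * (C * (T ^ (6 * κ) * H ^ (e (σ - ς))))) := hcard
    _ = ((q + 1) * (K : ℝ) ^ 2) * (C * (T ^ (6 * κ) * H ^ (e (σ - ς)))) := by push_cast; ring
    _ ≤ T ^ κ * (C * (T ^ (6 * κ) * H ^ (e (σ - ς)))) := by gcongr
    _ = C * ((T ^ κ * T ^ (6 * κ)) * H ^ (e (σ - ς))) := by ring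
    _ = C * (T ^ (7 * κ) * H ^ (e (σ - ς))) := by
        rw [← Real.rpow_add hTpos]
        congr 3
        ring

end Pool.Agent.K9h52.GX
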